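import Mathlib

/-!
# A convex left-continuous modular whose modular topology is not regular

On finitely supported functions on `ℕ × ℕ` let `ρ x = ∑ |x i| κ i` if
`|2 x (n, 0) - ∑ₘ x (n, m + 1)| ≤ 1` for all `n`, and `ρ x = ∞` otherwise, where
`κ (n, 0) = 1 / (n + 1)` and `κ (n, m + 1) = 1 / (m + 1)`.
The set of the unit vectors `e (n, 0)` is closed and cannot be separated from `0`.
-/

namespace Pool.Agent.Results.MP_106cb8_an.NotRegular

open Filter Set
open scoped ENNReal Topology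

/-- Convex modulars. -/
structure IsConvexModular {X : Type*} [AddCommGroup X] [Module ℝ X] (ρ : X → ℝ≥0∞) : Prop where
  eq_zero_iff : ∀ u, ρ u = 0 ↔ u = 0
  symm : ∀ (α : ℝ) (u : X), |α| = 1 → ρ (α • u) = ρ u
  convex : ∀ (α : ℝ), 0 ≤ α → α ≤ 1 → ∀ u v : X,
    ρ (α • u + (1 - α) • v) ≤ ENNReal.ofReal α * ρ u + ENNReal.ofReal (1 - α) * ρ v

/-- Left continuity along rays. -/
def LeftCont {X : Type*} [AddCommGroup X] [Module ℝ X] (ρ : X → ℝ≥0∞) : Prop :=
  ∀ (u : X) (t : ℝ), 0 < t → Tendsto (fun s : ℝ => ρ (s • u)) (𝓝[<] t) (𝓝 (ρ (t • u)))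

/-- The modular space. -/
def modularSpace {X : Type*} [AddCommGroup X] [Module ℝ X] (ρ : X → ℝ≥0∞) : Set X :=
  {v | ∃ t : ℝ, 0 < t ∧ ρ (t • v) < ⊤}

/-- Modular convergence of a sequence. -/
def ModConv {X : Type*} [AddCommGroup X] [Module ℝ X] (ρ : X → ℝ≥0∞)
    (x : ℕ → X) (y : X) : Prop := Tendsto (fun j => ρ (x j - y)) atTop (𝓝 0)

/-- The `ρ`-closed subsets of the modular space. -/
def ModClosed {X : Type*} [AddCommGroup X] [Module ℝ X] (ρ : X → ℝ≥0∞)
    (C : Set (modularSpace ρ)) : Prop :=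
  ∀ (x : ℕ → modularSpace ρ) (y : modularSpace ρ), (∀ j, x j ∈ C) →
    ModConv ρ (fun j => (x j : X)) (y : X) → y ∈ C

/-- The modular topology: its closed sets are the `ρ`-closed sets. -/
@[reducible] def modTopology {X : Type*} [AddCommGroup X] [Module ℝ X] (ρ : X → ℝ≥0∞) :
    TopologicalSpace (modularSpace ρ) :=
  TopologicalSpace.ofClosed {C | ModClosed ρ C}
    (by intro x y hx _; exact hx 0)
    (by
      intro A hA x y hx hxy C hC
      exact hA hC x y (fun j => hx j C hC) hxy)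
    (by
      intro A hA B hB x y hx hxy
      by_cases h : ∃ᶠ j in atTop, x j ∈ A
      · obtain ⟨φ, hφ, hφA⟩ := extraction_of_frequently_atTop h
        exact Or.inl (hA (x ∘ φ) y hφA (hxy.comp hφ.tendsto_atTop))
      · rw [not_frequently] at h
        have h2 : ∃ᶠ j in atTop, x j ∈ B := by
          apply Eventually.frequently
          filter_upwards [h] with j hj
          exact (hx j).resolve_left hj
        obtain ⟨φ, hφ, hφB⟩ := extraction_of_frequently_atTop h2
        exact Or.inr (hB (x ∘ φ) y hφB (hxy.comp hφ.tendsto_atTop)))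

lemma isClosed_iff {X : Type*} [AddCommGroup X] [Module ℝ X] (ρ : X → ℝ≥0∞)
    (C : Set (modularSpace ρ)) : @IsClosed _ (modTopology ρ) C ↔ ModClosed ρ C := by
  rw [← @isOpen_compl_iff _ _ (modTopology ρ)]
  change Cᶜᶜ ∈ {C | ModClosed ρ C} ↔ _
  rw [compl_compl]
  rfl

/-! ### The example -/

/-- The space. -/
abbrev V := (ℕ × ℕ) →₀ ℝ

/-- Weights of the norm. -/
noncomputable def κ (i : ℕ × ℕ) : ℝ := if i.2 = 0 then 1 / ((i.1 : ℝ) + 1) else 1 / (i.2 : ℝ)

lemma κ_pos (i : ℕ × ℕ) : 0 < κ i := by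
  unfold κ
  split_ifs with h
  · positivity
  · have : 0 < i.2 := Nat.pos_of_ne_zero h
    positivity

/-- The norm. -/
noncomputable def Nm (x : V) : ℝ := x.sum fun i c => |c| * κ i

/-- The functionals. -/
noncomputable def ℓ (n : ℕ) : V →ₗ[ℝ] ℝ :=
  Finsupp.linearCombination ℝ (fun i : ℕ × ℕ => if i.1 = n then (if i.2 = 0 then (2:ℝ) else -1) else 0)

lemma Nm_eq (x : V) (s : Finset (ℕ × ℕ)) (hs : x.support ⊆ s) : Nm x = ∑ i ∈ s, |x i| * κ i := by
  unfold Nm
  exact Finsupp.sum_of_support_subset x hs _ (by simp)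

lemma Nm_nonneg (x : V) : 0 ≤ Nm x := by
  rw [Nm_eq x _ (Finset.Subset.refl _)]
  exact Finset.sum_nonneg (fun i _ => mul_nonneg (abs_nonneg _) (κ_pos i).le)

lemma Nm_eq_zero (x : V) (h : Nm x = 0) : x = 0 := by
  rw [Nm_eq x _ (Finset.Subset.refl _),
    Finset.sum_eq_zero_iff_of_nonneg (fun i _ => mul_nonneg (abs_nonneg _) (κ_pos i).le)] at h
  ext i
  by_cases hi : i ∈ x.support
  · have := h i hi
    rcases mul_eq_zero.mp this with h1 | h1
    · simpa using h1
    · exact absurd h1 (κ_pos i).ne'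
  · simpa using hi

lemma Nm_smul (c : ℝ) (x : V) : Nm (c • x) = |c| * Nm x := by
  rw [Nm_eq (c • x) x.support (Finsupp.support_smul), Nm_eq x _ (Finset.Subset.refl _),
    Finset.mul_sum]
  apply Finset.sum_congr rfl
  intro i _
  simp [abs_mul, mul_assoc]

lemma Nm_add (x y : V) : Nm (x + y) ≤ Nm x + Nm y := by
  rw [Nm_eq (x + y) (x.support ∪ y.support) Finsupp.support_add,
    Nm_eq x (x.support ∪ y.support) Finset.subset_union_left,
    Nm_eq y (x.support ∪ y.support) Finset.subset_union_right, ← Finset.sum_add_distrib]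
  apply Finset.sum_le_sum
  intro i _
  rw [← add_mul]
  exact mul_le_mul_of_nonneg_right (abs_add_le _ _) (κ_pos i).le

lemma Nm_single (i : ℕ × ℕ) (c : ℝ) : Nm (Finsupp.single i c) = |c| * κ i := by
  unfold Nm
  rw [Finsupp.sum_single_index]
  simp

lemma ℓ_single (n : ℕ) (i : ℕ × ℕ) (c : ℝ) :
    ℓ n (Finsupp.single i c) = c * (if i.1 = n then (if i.2 = 0 then (2:ℝ) else -1) else 0) := by
  unfold ℓ
  rw [Finsupp.linearCombination_single, smul_eq_mul]

/-- The admissible region. -/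
def Adm (x : V) : Prop := ∀ n, |ℓ n x| ≤ 1

open Classical in
/-- The modular. -/
noncomputable def ρ (x : V) : ℝ≥0∞ := if Adm x then ENNReal.ofReal (Nm x) else ⊤

lemma ρ_of_adm {x : V} (h : Adm x) : ρ x = ENNReal.ofReal (Nm x) := if_pos h

lemma ρ_of_not {x : V} (h : ¬ Adm x) : ρ x = ⊤ := if_neg h

lemma adm_of_lt {x : V} (h : ρ x < ⊤) : Adm x := by
  by_contra hcon
  rw [ρ_of_not hcon] at h
  exact lt_irrefl _ h

lemma adm_zero : Adm 0 := by
  intro n
  simp

lemma adm_smul {x : V} {s t : ℝ} (hs : |s| ≤ |t|) (h : Adm (t • x)) : Adm (s • x) := by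
  intro n
  have h1 := h n
  rw [map_smul, smul_eq_mul, abs_mul] at h1 ⊢
  exact (mul_le_mul_of_nonneg_right hs (abs_nonneg _)).trans h1

lemma isConvexModular_ρ : IsConvexModular ρ := by
  refine ⟨?_, ?_, ?_⟩
  · intro u
    constructor
    · intro h
      have hadm : Adm u := adm_of_lt (by rw [h]; exact ENNReal.zero_lt_top)
      rw [ρ_of_adm hadm, ENNReal.ofReal_eq_zero] at h
      exact Nm_eq_zero u (le_antisymm h (Nm_nonneg u))
    · rintro rfl
      rw [ρ_of_adm adm_zero]
      simp [Nm]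
  · intro α u hα
    by_cases h : Adm u
    · have h1 : Adm (α • u) := adm_smul (s := α) (t := 1) (by rw [hα]; simp) (by rwa [one_smul])
      rw [ρ_of_adm h, ρ_of_adm h1, Nm_smul, hα, one_mul]
    · have h1 : ¬ Adm (α • u) := by
        intro h2
        apply h
        have := adm_smul (s := 1) (t := α) (by rw [hα]; simp) h2
        rwa [one_smul] at this
      rw [ρ_of_not h, ρ_of_not h1]
  · intro α h0 h1 u v
    rcases eq_or_lt_of_le h0 with h0' | h0'
    · rw [← h0']; simp
    rcases eq_or_lt_of_le h1 with h1' | h1'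
    · rw [h1']; simp
    by_cases hu : Adm u
    · by_cases hv : Adm v
      · have huv : Adm (α • u + (1 - α) • v) := by
          intro n
          rw [map_add, map_smul, map_smul, smul_eq_mul, smul_eq_mul]
          calc |α * ℓ n u + (1 - α) * ℓ n v| ≤ |α * ℓ n u| + |(1 - α) * ℓ n v| := abs_add_le _ _
            _ = α * |ℓ n u| + (1 - α) * |ℓ n v| := by
              rw [abs_mul, abs_mul, abs_of_nonneg h0, abs_of_nonneg (by linarith : 0 ≤ 1 - α)]
            _ ≤ α * 1 + (1 - α) * 1 := by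
              have := mul_le_mul_of_nonneg_left (hu n) h0
              have := mul_le_mul_of_nonneg_left (hv n) (by linarith : 0 ≤ 1 - α)
              linarith
            _ = 1 := by ring
        rw [ρ_of_adm hu, ρ_of_adm hv, ρ_of_adm huv, ← ENNReal.ofReal_mul h0,
          ← ENNReal.ofReal_mul (by linarith), ← ENNReal.ofReal_add
            (mul_nonneg h0 (Nm_nonneg u)) (mul_nonneg (by linarith) (Nm_nonneg v))]
        apply ENNReal.ofReal_le_ofReal
        refine (Nm_add _ _).trans ?_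
        rw [Nm_smul, Nm_smul, abs_of_nonneg h0, abs_of_nonneg (by linarith : 0 ≤ 1 - α)]
      · rw [ρ_of_not hv, ENNReal.mul_top (by simpa using h1')]
        simp
    · rw [ρ_of_not hu, ENNReal.mul_top (by simpa using h0')]
      simp

lemma leftCont_ρ : LeftCont ρ := by
  intro u t ht
  by_cases h : Adm (t • u)
  · rw [ρ_of_adm h]
    have h1 : Tendsto (fun s : ℝ => ENNReal.ofReal (Nm (s • u))) (𝓝[<] t)
        (𝓝 (ENNReal.ofReal (Nm (t • u)))) := by
      apply ENNReal.tendsto_ofReal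
      simp_rw [Nm_smul]
      apply Tendsto.mono_left _ nhdsWithin_le_nhds
      exact (continuous_abs.mul continuous_const).tendsto t
    refine h1.congr' ?_
    have h2 : ∀ᶠ s in 𝓝[<] t, s ∈ Ioo 0 t := Ioo_mem_nhdsLT ht
    filter_upwards [h2] with s hs
    rw [ρ_of_adm]
    apply adm_smul _ h
    rw [abs_of_pos hs.1, abs_of_pos ht]
    exact hs.2.le
  · rw [ρ_of_not h]
    refine tendsto_const_nhds.congr' ?_
    unfold Adm at h
    push Not at h
    obtain ⟨n, hn⟩ := h
    have h2 : ∀ᶠ s in 𝓝[<] t, 1 < |ℓ n (s • u)| := by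
      have h3 : Tendsto (fun s : ℝ => |ℓ n (s • u)|) (𝓝[<] t) (𝓝 (|ℓ n (t • u)|)) := by
        simp_rw [map_smul, smul_eq_mul]
        apply Tendsto.mono_left _ nhdsWithin_le_nhds
        exact (continuous_abs.comp (continuous_id.mul continuous_const)).tendsto t
      exact h3.eventually (lt_mem_nhds hn)
    filter_upwards [h2] with s hs
    rw [ρ_of_not]
    intro hcon
    exact absurd (hcon n) (not_le.mpr hs)

/-- The functionals of a finitely supported vector are zero up to finitely many. -/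
lemma ℓ_eventually_zero (x : V) : ∃ M : ℕ, ∀ n, M ≤ n → ℓ n x = 0 := by
  classical
  refine ⟨(x.support.image Prod.fst).sup id + 1, ?_⟩
  intro n hn
  unfold ℓ
  rw [Finsupp.linearCombination_apply, Finsupp.sum]
  apply Finset.sum_eq_zero
  intro i hi
  have h1 : i.1 ≤ (x.support.image Prod.fst).sup id :=
    Finset.le_sup (f := id) (Finset.mem_image_of_mem Prod.fst hi)
  rw [if_neg (by omega)]
  simp

lemma mem_modularSpace (x : V) : x ∈ modularSpace ρ := by
  -- bound the functionals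
  obtain ⟨M, hM⟩ := ℓ_eventually_zero x
  set K : ℝ := ∑ n ∈ Finset.range M, |ℓ n x| with hK
  have hK0 : 0 ≤ K := Finset.sum_nonneg (fun _ _ => abs_nonneg _)
  have hle : ∀ n, |ℓ n x| ≤ K := by
    intro n
    by_cases h : n < M
    · exact Finset.single_le_sum (f := fun n => |ℓ n x|) (fun _ _ => abs_nonneg _)
        (Finset.mem_range.mpr h)
    · rw [hM n (by omega)]
      simpa using hK0
  refine ⟨1 / (K + 1), by positivity, ?_⟩
  rw [ρ_of_adm]
  · exact ENNReal.ofReal_lt_top
  · intro n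
    rw [map_smul, smul_eq_mul, abs_mul, abs_of_nonneg (by positivity)]
    rw [div_mul_eq_mul_div, one_mul, div_le_one (by positivity)]
    linarith [hle n]

/-- The vectors `e (n, 0)`. -/
noncomputable def f (n : ℕ) : modularSpace ρ := ⟨Finsupp.single (n, 0) 1, mem_modularSpace _⟩

/-- The vectors `e (n, 0) + e (n, m + 1)`. -/
noncomputable def s (n m : ℕ) : modularSpace ρ :=
  ⟨Finsupp.single (n, 0) 1 + Finsupp.single (n, m + 1) 1, mem_modularSpace _⟩

lemma adm_d (n m : ℕ) : Adm (Finsupp.single (n, m + 1) 1 : V) := by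
  intro k
  rw [ℓ_single]
  by_cases h : n = k <;> simp [h]

lemma adm_s (n m : ℕ) : Adm (Finsupp.single (n, 0) 1 + Finsupp.single (n, m + 1) 1 : V) := by
  intro k
  rw [map_add, ℓ_single, ℓ_single]
  by_cases h : n = k
  · simp [h]
    norm_num
  · simp [h]

lemma tendsto_s (n : ℕ) : ModConv ρ (fun m => (s n m : V)) (f n : V) := by
  unfold ModConv
  have e : ∀ m, ρ ((s n m : V) - (f n : V)) = ENNReal.ofReal (1 / ((m : ℝ) + 1)) := by
    intro m
    have : (s n m : V) - (f n : V) = Finsupp.single (n, m + 1) 1 := by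
      simp [s, f]
    rw [this, ρ_of_adm (adm_d n m), Nm_single]
    simp [κ]
  simp_rw [e]
  rw [← ENNReal.ofReal_zero]
  exact ENNReal.tendsto_ofReal tendsto_one_div_add_atTop_nhds_zero_nat

lemma ρ_s_le (n m : ℕ) (h : n ≤ m) : ρ (s n m : V) ≤ ENNReal.ofReal (2 * (1 / ((n : ℝ) + 1))) := by
  rw [show (s n m : V) = Finsupp.single (n, 0) 1 + Finsupp.single (n, m + 1) 1 from rfl,
    ρ_of_adm (adm_s n m)]
  apply ENNReal.ofReal_le_ofReal
  refine (Nm_add _ _).trans ?_
  rw [Nm_single, Nm_single]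
  have h1 : κ (n, 0) = 1 / ((n : ℝ) + 1) := by simp [κ]
  have h2 : κ (n, m + 1) = 1 / ((m : ℝ) + 1) := by simp [κ]
  rw [h1, h2]
  have h3 : 1 / ((m : ℝ) + 1) ≤ 1 / ((n : ℝ) + 1) := by
    apply one_div_le_one_div_of_le (by positivity)
    have : (n : ℝ) ≤ m := by exact_mod_cast h
    linarith
  simp only [abs_one, one_mul]
  linarith

lemma closed_F : ModClosed ρ (range f) := by
  intro x y hx hxy
  choose k hk using hx
  obtain ⟨M, hM⟩ := ℓ_eventually_zero (y : V)
  unfold ModConv at hxy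
  have h1 : ∀ᶠ j in atTop, ρ ((x j : V) - (y : V)) < ⊤ :=
    hxy.eventually (gt_mem_nhds ENNReal.zero_lt_top)
  have h2 : ∀ᶠ j in atTop, k j < M := by
    filter_upwards [h1] with j hj
    by_contra hcon
    have h3 := adm_of_lt hj (k j)
    rw [← hk j, map_sub, hM (k j) (by omega)] at h3
    rw [show ((f (k j) : modularSpace ρ) : V) = Finsupp.single (k j, 0) 1 from rfl, ℓ_single] at h3
    simp at h3
  -- infinitely many equal indices
  have h4 : ∃ n, ∃ᶠ j in atTop, k j = n := by
    by_contra hcon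
    push Not at hcon
    have h5 : ∀ᶠ j in atTop, ∀ n ∈ Finset.range M, k j ≠ n := by
      rw [Filter.eventually_all_finset]
      intro n _
      exact hcon n
    obtain ⟨j, hj1, hj2⟩ := (h2.and h5).exists
    exact hj2 (k j) (Finset.mem_range.mpr hj1) rfl
  obtain ⟨n, hn⟩ := h4
  have h6 : ρ ((f n : V) - (y : V)) = 0 := by
    obtain ⟨φ, hφ, hφn⟩ := extraction_of_frequently_atTop hn
    have h7 := hxy.comp hφ.tendsto_atTop
    have h8 : (fun j => ρ ((x j : V) - (y : V))) ∘ φ = fun _ => ρ ((f n : V) - (y : V)) := by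
      funext j
      simp only [Function.comp]
      rw [← hk (φ j), hφn j]
    rw [h8] at h7
    exact tendsto_nhds_unique tendsto_const_nhds h7
  have h9 := (isConvexModular_ρ.eq_zero_iff _).mp h6
  refine ⟨n, ?_⟩
  apply Subtype.ext
  exact sub_eq_zero.mp h9

/-- **There is a convex, left-continuous modular whose modular topology is not regular.** -/
theorem result : ∃ (X : Type) (_ : AddCommGroup X) (_ : Module ℝ X) (ρ : X → ℝ≥0∞),
    IsConvexModular ρ ∧ LeftCont ρ ∧ ¬ @RegularSpace (modularSpace ρ) (modTopology ρ) := by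
  refine ⟨V, inferInstance, inferInstance, ρ, isConvexModular_ρ, leftCont_ρ, ?_⟩
  intro hreg
  letI : TopologicalSpace (modularSpace ρ) := modTopology ρ
  set z : modularSpace ρ := ⟨0, mem_modularSpace 0⟩ with hz
  have hF : IsClosed (range f) := (isClosed_iff ρ _).mpr closed_F
  have hzF : z ∉ range f := by
    rintro ⟨n, hn⟩
    have h1 : ((f n : modularSpace ρ) : V) = 0 := by rw [hn]
    have h2 : (Finsupp.single (n, 0) (1:ℝ) : V) = 0 := h1
    simp at h2
  have hdis := hreg.regular hF hzF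
  rw [disjoint_iff_inf_le] at hdis
  obtain ⟨A, hA, B, hB, hAB⟩ := Filter.disjoint_iff.mp (disjoint_iff_inf_le.mpr hdis)
  obtain ⟨A', hA'o, hFA', hA'A⟩ := mem_nhdsSet_iff_exists.mp hA
  obtain ⟨B', hB'B, hB'o, hzB'⟩ := mem_nhds_iff.mp hB
  have hdisj : Disjoint A' B' := hAB.mono hA'A hB'B
  -- sequential openness
  have hseq : ∀ (U : Set (modularSpace ρ)), IsOpen U → ∀ (x : ℕ → modularSpace ρ)
      (y : modularSpace ρ), y ∈ U → ModConv ρ (fun j => (x j : V)) (y : V) →
      ∀ᶠ j in atTop, x j ∈ U := by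
    intro U hU x y hy hxy
    by_contra hcon
    rw [not_eventually] at hcon
    obtain ⟨φ, hφ, hφU⟩ := extraction_of_frequently_atTop hcon
    have hcl : ModClosed ρ Uᶜ := (isClosed_iff ρ _).mp (isClosed_compl_iff.mpr hU)
    exact hcl (x ∘ φ) y hφU (hxy.comp hφ.tendsto_atTop) hy
  have hm : ∀ n, ∃ m, n ≤ m ∧ s n m ∈ A' := by
    intro n
    have h1 := hseq A' hA'o (fun m => s n m) (f n) (hFA' ⟨n, rfl⟩) (tendsto_s n)
    obtain ⟨m, hm1, hm2⟩ := ((eventually_ge_atTop n).and h1).exists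
    exact ⟨m, hm1, hm2⟩
  choose m hmn hmA using hm
  have hconv : ModConv ρ (fun n => ((s n (m n) : modularSpace ρ) : V)) (z : V) := by
    unfold ModConv
    have h0 : (z : V) = 0 := rfl
    simp_rw [h0, sub_zero]
    have h2 : Tendsto (fun n : ℕ => ENNReal.ofReal (2 * (1 / ((n : ℝ) + 1)))) atTop (𝓝 0) := by
      rw [← ENNReal.ofReal_zero]
      apply ENNReal.tendsto_ofReal
      have := (tendsto_one_div_add_atTop_nhds_zero_nat (𝕜 := ℝ)).const_mul 2
      rwa [mul_zero] at this
    exact tendsto_of_tendsto_of_tendsto_of_le_of_le tendsto_const_nhds h2 (fun _ => zero_le)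
      (fun n => ρ_s_le n (m n) (hmn n))
  obtain ⟨n, hn⟩ := (hseq B' hB'o (fun n => s n (m n)) z hzB' hconv).exists
  exact Set.disjoint_left.mp hdisj (hmA n) hn

end Pool.Agent.Results.MP_106cb8_an.NotRegular
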